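import Pool.Agent.X256.HC.Socle

/-!
# An almost simple group of Lie type not determined by its character degree set

`H` is the automorphism group `PΓL_2(25)` of the simple group `PSL_2(25)`, and `G` is the
sharply three-transitive group of order 15600 in `H`, distinct from `PGL_2(25)`.
-/

open scoped Classical
open Pool.Agent.Helper884.IC Pool.Agent.X256.CT Pool.Agent.X256.HC

noncomputable section

namespace Pool.Agent.Results.MP_0ee941_al.PGammaL25

/-- the set of the degrees of the irreducible complex representations -/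
def cd (X : Type) [Group X] : Set ℕ :=
  {n | ∃ (V : Type) (_ : AddCommGroup V) (_ : Module ℂ V) (_ : FiniteDimensional ℂ V)
    (rho : Representation ℂ X V), rho.IsIrreducible ∧ Module.finrank ℂ V = n}

/-- the group `PSL_2(25)` -/
def PSL25 : Type := Matrix.ProjectiveSpecialLinearGroup (Fin 2) (GaloisField 5 2)

instance : Group PSL25 :=
  QuotientGroup.Quotient.group
    (Subgroup.center (Matrix.SpecialLinearGroup (Fin 2) (GaloisField 5 2)))

/-- finite non-abelian simple groups -/
def NonabelianSimple (S : Type) [Group S] : Prop :=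
  Finite S ∧ IsSimpleGroup S ∧ ∃ x y : S, x * y ≠ y * x

/-- `Inn S ≤ H ≤ Aut S`: the group `H` acts faithfully on the finite non-abelian simple group `S` by
automorphisms, and every inner automorphism of `S` is induced by an element of `H` -/
def AlmostSimple (S H : Type) [Group S] [Group H] : Prop :=
  NonabelianSimple S ∧ ∃ a : H → S → S,
    (∀ h s t, a h (s * t) = a h s * a h t) ∧
    (∀ s, a 1 s = s) ∧ (∀ g h s, a (g * h) s = a g (a h s)) ∧
    (∀ h, (∀ s, a h s = s) → h = 1) ∧
    ∀ s, ∃ h, ∀ t, a h t = s * t * s⁻¹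

/-- the five degrees -/
def degs : Set ℕ := {1, 25, 26, 48, 52}

/-- no quotient of `G` is isomorphic to `H` -/
def NoQuotient (G H : Type) [Group G] [Group H] : Prop :=
  ∀ (A : Subgroup G) [A.Normal], IsEmpty (G ⧸ A ≃* H)

lemma mem_cd {X : Type} [Group X] {n : ℕ} :
    n ∈ cd X ↔ ∃ chi : X → ℂ, IsIrrChar chi ∧ chi 1 = n := by
  constructor
  · rintro ⟨V, i1, i2, i3, rho, hr, hn⟩
    refine ⟨rho.character, ⟨V, i1, i2, i3, rho, hr, rfl⟩, ?_⟩
    rw [rho.char_one, hn]
  · rintro ⟨chi, ⟨V, i1, i2, i3, rho, hr, rfl⟩, hn⟩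
    refine ⟨V, i1, i2, i3, rho, hr, ?_⟩
    rw [rho.char_one] at hn
    exact_mod_cast hn

lemma almostSimple_of {S H : Type} [Group S] [Group H] (hS : NonabelianSimple S)
    (phi : H →* MulAut S) (h1 : Function.Injective phi) (h2 : ∀ s, ∃ h, phi h = MulAut.conj s) :
    AlmostSimple S H := by
  refine ⟨hS, fun h s => phi h s, fun h s t => map_mul (phi h) s t, ?_, ?_, ?_, ?_⟩
  · intro s
    change phi 1 s = s
    rw [map_one]
    rfl
  · intro g h s
    change phi (g * h) s = phi g (phi h s)
    rw [map_mul]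
    rfl
  · intro h hh
    apply h1
    rw [map_one]
    exact MulEquiv.ext hh
  · intro s
    obtain ⟨h, hh⟩ := h2 s
    refine ⟨h, fun t => ?_⟩
    change phi h t = _
    rw [hh]
    rfl

/-- the five degrees -/
lemma cd_eq {X : Type} [Group X] (h0 : ∀ chi : X → ℂ, IsIrrChar chi →
      chi 1 = 1 ∨ chi 1 = 25 ∨ chi 1 = 26 ∨ chi 1 = 48 ∨ chi 1 = 52)
    (h1 : ∃ chi : X → ℂ, IsIrrChar chi ∧ chi 1 = 1) (h2 : ∃ chi : X → ℂ, IsIrrChar chi ∧ chi 1 = 25)
    (h3 : ∃ chi : X → ℂ, IsIrrChar chi ∧ chi 1 = 26) (h4 : ∃ chi : X → ℂ, IsIrrChar chi ∧ chi 1 = 48)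
    (h5 : ∃ chi : X → ℂ, IsIrrChar chi ∧ chi 1 = 52) : cd X = degs := by
  ext n
  rw [mem_cd]
  unfold degs
  simp only [Set.mem_insert_iff, Set.mem_singleton_iff]
  constructor
  · rintro ⟨chi, hc, hn⟩
    rcases h0 chi hc with h | h | h | h | h <;> rw [h] at hn
    · left; exact_mod_cast hn.symm
    · right; left; exact_mod_cast hn.symm
    · right; right; left; exact_mod_cast hn.symm
    · right; right; right; left; exact_mod_cast hn.symm
    · right; right; right; right; exact_mod_cast hn.symm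
  · rintro (rfl | rfl | rfl | rfl | rfl)
    · exact_mod_cast h1
    · exact_mod_cast h2
    · exact_mod_cast h3
    · exact_mod_cast h4
    · exact_mod_cast h5

/-- **Main theorem.** There are an almost simple group `H` with socle `PSL_2(25)` and a finite group
`G` with `cd G = cd H` such that `G/A` is not isomorphic to `H` for any normal subgroup `A`. -/
theorem result : ∃ (H G : Type) (_ : Group H) (_ : Group G), AlmostSimple PSL25 H ∧
    Nat.card H = 31200 ∧ Nat.card G = 15600 ∧ cd H = degs ∧ cd G = degs ∧ NoQuotient G H := by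
  have hc : Nat.card (GaloisField 5 2) = 25 := by
    rw [GaloisField.card 5 2 (by norm_num)]
    norm_num
  letI : Fintype (GaloisField 5 2) := Fintype.ofFinite _
  have hF : Fintype.card (GaloisField 5 2) = 25 := by rw [← Nat.card_eq_fintype_card, hc]
  set S := fro (GaloisField 5 2) hF with hS
  have hsimple : IsSimpleGroup PSL25 := by
    exact Matrix.ProjectiveSpecialLinearGroup.rank_two_simple (by rw [hc]; norm_num)
  have hact := S.act_inj
  have hfix := fro_fix (GaloisField 5 2) hF
  have hcG : Nat.card (S.XX tyG) = 15600 := by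
    rw [S.card_XX tyG regG.tr, S.card_reg tyG hfix regG, hF]
  have hcH : Nat.card (S.XX tyH) = 31200 := by
    rw [S.card_H hfix regG, hcG]
  obtain ⟨a1, a2, a3, a4⟩ := degrees_exist (GaloisField 5 2) hF tyG regG.tr ⟨true, rfl⟩
  obtain ⟨b1, b2, b3, b4⟩ := degrees_exist (GaloisField 5 2) hF tyH trH ⟨true, trivial⟩
  have hcdG : cd (S.XX tyG) = degs :=
    cd_eq (fun chi hchi => degrees_G (GaloisField 5 2) hF hchi) a1 a2 a3
      (exists_48_G (GaloisField 5 2) hF) a4
  have hcdH : cd (S.XX tyH) = degs :=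
    cd_eq (fun chi hchi => degrees_H (GaloisField 5 2) hF hchi) b1 b2 b3
      (exists_48_H (GaloisField 5 2) hF) b4
  have hfin : Finite PSL25 :=
    inferInstanceAs (Finite (Matrix.ProjectiveSpecialLinearGroup (Fin 2) (GaloisField 5 2)))
  have hna : NonabelianSimple (Matrix.ProjectiveSpecialLinearGroup (Fin 2) (GaloisField 5 2)) := by
    refine ⟨hfin, hsimple, ?_⟩
    by_contra hno
    push Not at hno
    -- the translation by one and the inversion would commute
    have h1 : S.pslE.symm ⟨_, S.uu_soc 1⟩ * S.pslE.symm ⟨_, S.ww_soc⟩ =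
        S.pslE.symm ⟨_, S.ww_soc⟩ * S.pslE.symm ⟨_, S.uu_soc 1⟩ := hno _ _
    rw [← map_mul, ← map_mul] at h1
    have h2 := congrArg Subtype.val (S.pslE.symm.injective h1)
    have h3 := congrArg (fun z : S.XX tyH => z.1 OnePoint.infty) h2
    change (S.uu tyH 1).1 ((S.ww tyH).1 OnePoint.infty) =
      (S.ww tyH).1 ((S.uu tyH 1).1 OnePoint.infty) at h3
    rw [S.uu_infty, S.ww_infty, S.uu_coe, zero_add, OnePoint.coe_eq_coe] at h3
    exact one_ne_zero h3
  refine ⟨S.XX tyH, S.XX tyG, inferInstance, inferInstance,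
    almostSimple_of hna S.act hact (fun s => ⟨_, S.act_conj s⟩), hcH, hcG, hcdH, hcdG, ?_⟩
  intro A hA
  refine ⟨fun f => ?_⟩
  have h1 : Nat.card (S.XX tyG ⧸ A) = 31200 := (Nat.card_congr f.toEquiv).trans hcH
  have h2 : Nat.card (S.XX tyG ⧸ A) ≤ Nat.card (S.XX tyG) :=
    Nat.card_le_card_of_surjective _ (QuotientGroup.mk'_surjective A)
  rw [h1, hcG] at h2
  norm_num at h2

end Pool.Agent.Results.MP_0ee941_al.PGammaL25
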